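import Mathlib

/-!
# A locally finite, locally integrable group that is not integrable

The group is `G = S₃ × ⨁_ℕ A₅`.

* It is not a derived subgroup: `A₃ × 1` is characteristic in `G`, cyclic and noncentral; if
  `G ≅ H'`, it is normal in `H`, and as the automorphisms of a cyclic group commute, `H'`
  centralizes it.
* Each finite subset lies in a copy of `A₅^m × ⨁_ℤ S₃`, the derived subgroup of
  `A₅^m × H1`, where `H1` is the extension by the shift of the group of functions `ℤ → S₃`
  which are `1` near `-∞` and eventually constant in `⟨(0 1)⟩` near `+∞`.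
-/

namespace Pool.Agent.Results.MP_2bd3fb_al.NotIntegrable
open scoped commutatorElement

/-- `S₃`. -/
abbrev P : Type := Equiv.Perm (Fin 3)

/-- `A₅`, acting on `Fin 3 ⊕ Fin 2`. -/
abbrev A : Type := alternatingGroup (Fin 3 ⊕ Fin 2)

/-- The restricted direct power: functions `ι → M` equal to `1` at all but finitely many places. -/
def FS (ι : Type) (M : Type) [Group M] : Subgroup (ι → M) where
  carrier := {f | (Function.mulSupport f).Finite}
  one_mem' := by simp
  mul_mem' := by
    intro a b ha hb
    exact (Set.Finite.union ha hb).subset (Function.mulSupport_mul a b)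
  inv_mem' := by
    intro a ha
    simpa [Function.mulSupport_inv] using ha

lemma mem_FS {ι M : Type} [Group M] (f : ι → M) : f ∈ FS ι M ↔ (Function.mulSupport f).Finite := Iff.rfl

/-- The group `S₃ × ⨁_ℕ A₅`. -/
abbrev G : Type := P × FS ℕ A

lemma single_mem {ι M : Type} [DecidableEq ι] [Group M] (i : ι) (x : M) : Pi.mulSingle i x ∈ FS ι M := by
  rw [mem_FS]
  exact (Set.finite_singleton i).subset (Pi.mulSupport_mulSingle_subset)

/-- The function with value `x` at `i` and `1` elsewhere. -/
def single {ι M : Type} [DecidableEq ι] [Group M] (i : ι) (x : M) : FS ι M :=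
  ⟨Pi.mulSingle i x, single_mem i x⟩

lemma exists_bound (S : Set G) (hS : S.Finite) : ∃ m : ℕ, ∀ g ∈ S, ∀ n, m ≤ n → (g.2 : ℕ → A) n = 1 := by
  have h : (⋃ g ∈ S, Function.mulSupport (g.2 : ℕ → A)).Finite :=
    hS.biUnion (fun g _ => g.2.2)
  obtain ⟨m, hm⟩ := h.bddAbove
  refine ⟨m + 1, fun g hg n hn => ?_⟩
  by_contra hne
  have : n ≤ m := hm (Set.mem_biUnion hg hne)
  omega

/-- Elements of `G` supported below `m`. -/
def below (m : ℕ) : Subgroup G where
  carrier := {g | ∀ n, m ≤ n → (g.2 : ℕ → A) n = 1}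
  one_mem' := by intro n _; rfl
  mul_mem' := by
    intro a b ha hb n hn
    simp [ha n hn, hb n hn]
  inv_mem' := by
    intro a ha n hn
    simp [ha n hn]

lemma below_finite (m : ℕ) : (below m : Set G).Finite := by
  let F : G → P × (Fin m → A) := fun g => (g.1, fun i => (g.2 : ℕ → A) i)
  refine Set.Finite.of_finite_image (f := F) (Set.toFinite _) ?_
  intro a ha b hb hab
  simp only [F, Prod.mk.injEq] at hab
  refine Prod.ext hab.1 (Subtype.ext ?_)
  funext n
  by_cases hn : n < m
  · exact congrFun hab.2 ⟨n, hn⟩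
  · rw [ha n (not_lt.mp hn), hb n (not_lt.mp hn)]

lemma locally_finite (S : Set G) (hS : S.Finite) : (Subgroup.closure S : Set G).Finite := by
  obtain ⟨m, hm⟩ := exists_bound S hS
  refine (below_finite m).subset ?_
  have : Subgroup.closure S ≤ below m := (Subgroup.closure_le _).mpr (fun g hg => hm g hg)
  exact this

/-! ### Non-integrability -/

lemma perfect_A : commutator A = ⊤ := by
  apply commutator_alternatingGroup_eq_top
  simp

lemma derivedSeries_A (n : ℕ) : derivedSeries A n = ⊤ := by
  induction n with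
  | zero => rfl
  | succ n ih => rw [derivedSeries_succ, ih]; exact perfect_A

lemma derivedSeries_P : derivedSeries P 2 = ⊥ := by
  have h1 : derivedSeries P 1 ≤ alternatingGroup (Fin 3) := by
    rw [derivedSeries_one, commutator_def, Subgroup.commutator_le]
    intro a _ b _
    rw [Equiv.Perm.mem_alternatingGroup, commutatorElement_def]
    simp only [map_mul, map_inv]
    rcases Int.units_eq_one_or (Equiv.Perm.sign a) with h | h <;>
    rcases Int.units_eq_one_or (Equiv.Perm.sign b) with h' | h' <;> simp [h, h']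
  rw [derivedSeries_succ, eq_bot_iff]
  refine (Subgroup.commutator_mono h1 h1).trans ?_
  rw [Subgroup.commutator_le]
  intro a ha b hb
  rw [Equiv.Perm.mem_alternatingGroup] at ha hb
  rw [Subgroup.mem_bot]
  revert a b
  decide


/-- The `3`-cycle generating `A₃`. -/
def c3 : P := finRotate 3

/-- The element `(c3, 1)`. -/
def x : G := (c3, 1)

/-- The characteristic subgroup `A₃ × 1`. -/
def Q : Subgroup G := ⁅(⊤ : Subgroup G), ⊤⁆ ⊓ Subgroup.centralizer (derivedSeries G 2 : Set G)

instance Q_char : Q.Characteristic := by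
  unfold Q
  have : (Subgroup.centralizer (derivedSeries G 2 : Set G)).Characteristic :=
    inferInstance
  infer_instance

/-- The embedding of `A₅` as the `n`-th coordinate. -/
def coord (n : ℕ) : A →* G where
  toFun a := (1, single n a)
  map_one' := by
    refine Prod.ext rfl (Subtype.ext ?_)
    exact Pi.mulSingle_one n
  map_mul' a b := by
    refine Prod.ext (by simp) (Subtype.ext ?_)
    exact Pi.mulSingle_mul (f := fun _ : ℕ => A) n a b

lemma coord_mem (n : ℕ) (a : A) : coord n a ∈ derivedSeries G 2 := by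
  have h := map_derivedSeries_le_derivedSeries (coord n) 2
  apply h
  rw [derivedSeries_A]
  exact Subgroup.mem_map_of_mem _ (Subgroup.mem_top a)

lemma fst_derived (g : G) (hg : g ∈ derivedSeries G 2) : g.1 = 1 := by
  have h := map_derivedSeries_le_derivedSeries (MonoidHom.fst P (FS ℕ A)) 2
  have h2 : g.1 ∈ derivedSeries P 2 := h (Subgroup.mem_map_of_mem _ hg)
  rw [derivedSeries_P] at h2
  exact Subgroup.mem_bot.mp h2

lemma x_mem_Q : x ∈ Q := by
  constructor
  · have : x = ⁅((Equiv.swap 0 1, 1) : G), ((Equiv.swap 1 2, 1) : G)⁆ ∨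
        x = ⁅((Equiv.swap 1 2, 1) : G), ((Equiv.swap 0 1, 1) : G)⁆ := by
      have : c3 = ⁅(Equiv.swap 0 1 : P), Equiv.swap 1 2⁆ ∨ c3 = ⁅(Equiv.swap 1 2 : P), Equiv.swap 0 1⁆ := by
        unfold c3
        simp only [commutatorElement_def]
        decide
      rcases this with h | h
      · left
        refine Prod.ext ?_ ?_
        · exact h
        · simp [x, commutatorElement_def]
      · right
        refine Prod.ext ?_ ?_
        · exact h
        · simp [x, commutatorElement_def]
    rcases this with h | h <;>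
    · rw [h]
      exact Subgroup.commutator_mem_commutator (Subgroup.mem_top _) (Subgroup.mem_top _)
  · refine Subgroup.mem_centralizer_iff.mpr ?_
    intro g hg
    have h1 := fst_derived g hg
    refine Prod.ext ?_ ?_
    · simp [h1]
    · simp [x]

lemma Q_le (g : G) (hg : g ∈ Q) : g ∈ Subgroup.zpowers x := by
  obtain ⟨h1, h2⟩ := hg
  have hs : Equiv.Perm.sign g.1 = 1 := by
    let F : G →* ℤˣ := Equiv.Perm.sign.comp (MonoidHom.fst P (FS ℕ A))
    have : ⁅(⊤ : Subgroup G), ⊤⁆ ≤ F.ker := by
      rw [Subgroup.commutator_le]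
      intro a _ b _
      rw [MonoidHom.mem_ker, map_commutatorElement, commutatorElement_eq_one_iff_mul_comm]
      exact mul_comm _ _
    exact this h1
  have hz : g.1 ∈ Subgroup.zpowers c3 := by
    have : ∀ s : P, Equiv.Perm.sign s = 1 → s = 1 ∨ s = c3 ∨ s = c3⁻¹ := by
      unfold c3
      decide
    rcases this g.1 hs with h | h | h
    · rw [h]; exact one_mem _
    · rw [h]; exact Subgroup.mem_zpowers _
    · rw [h]; exact inv_mem (Subgroup.mem_zpowers _)
  have h1 : g.2 = 1 := by
    apply Subtype.ext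
    funext n
    have hc : (g.2 : ℕ → A) n ∈ Subgroup.center A := by
      rw [Subgroup.mem_center_iff]
      intro a
      have h2 := Subgroup.mem_centralizer_iff.mp h2
      have := h2 (coord n a) (coord_mem n a)
      have h3 := congrFun (congrArg Subtype.val (congrArg Prod.snd this)) n
      simpa [coord, single] using h3
    have hb : Subgroup.center A = ⊥ := alternatingGroup.center_eq_bot (by simp)
    rw [hb, Subgroup.mem_bot] at hc
    exact hc
  obtain ⟨k, hk⟩ := hz
  refine ⟨k, ?_⟩
  refine Prod.ext ?_ ?_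
  · simpa [x] using hk
  · simp [x, h1]

/-- If all conjugates of `x` are powers of `x`, the derived subgroup centralizes `x`. -/
lemma commutator_centralizes {H : Type*} [Group H] (x : H)
    (hx : ∀ h : H, h * x * h⁻¹ ∈ Subgroup.zpowers x) (g : H) (hg : g ∈ commutator H) :
    x * g = g * x := by
  have key : commutator H ≤ Subgroup.centralizer {x} := by
    rw [commutator_def, Subgroup.commutator_le]
    intro a _ b _
    rw [Subgroup.mem_centralizer_singleton_iff]
    obtain ⟨i, hi⟩ := hx a⁻¹
    obtain ⟨j, hj⟩ := hx b⁻¹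
    simp only at hi hj
    have e1 : (a⁻¹ * b⁻¹) * x * (a⁻¹ * b⁻¹)⁻¹ = x ^ (i * j) := by
      calc (a⁻¹ * b⁻¹) * x * (a⁻¹ * b⁻¹)⁻¹ = a⁻¹ * (b⁻¹ * x * b⁻¹⁻¹) * a⁻¹⁻¹ := by group
        _ = a⁻¹ * x ^ j * a⁻¹⁻¹ := by rw [← hj]
        _ = (a⁻¹ * x * a⁻¹⁻¹) ^ j := by rw [conj_zpow]
        _ = x ^ (i * j) := by rw [← hi, zpow_mul]
    have e2 : (b⁻¹ * a⁻¹) * x * (b⁻¹ * a⁻¹)⁻¹ = x ^ (i * j) := by
      calc (b⁻¹ * a⁻¹) * x * (b⁻¹ * a⁻¹)⁻¹ = b⁻¹ * (a⁻¹ * x * a⁻¹⁻¹) * b⁻¹⁻¹ := by group
        _ = b⁻¹ * x ^ i * b⁻¹⁻¹ := by rw [← hi]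
        _ = (b⁻¹ * x * b⁻¹⁻¹) ^ i := by rw [conj_zpow]
        _ = x ^ (i * j) := by rw [← hj, mul_comm i j, zpow_mul]
    have h1 := e1.trans e2.symm
    rw [commutatorElement_def]
    calc (a * b * a⁻¹ * b⁻¹) * x
        = (b⁻¹ * a⁻¹)⁻¹ * ((a⁻¹ * b⁻¹) * x * (a⁻¹ * b⁻¹)⁻¹) * (a⁻¹ * b⁻¹) := by group
      _ = (b⁻¹ * a⁻¹)⁻¹ * ((b⁻¹ * a⁻¹) * x * (b⁻¹ * a⁻¹)⁻¹) * (a⁻¹ * b⁻¹) := by rw [h1]
      _ = x * (a * b * a⁻¹ * b⁻¹) := by group
  exact (Subgroup.mem_centralizer_singleton_iff.mp (key hg)).symm

/-- `G` is not a derived subgroup. -/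
lemma not_integrable (H : Type*) [Group H] (e : G ≃* commutator H) : False := by
  let N : Subgroup (commutator H) := Q.map e.toMonoidHom
  have hN : N.Characteristic := by
    rw [Subgroup.characteristic_iff_map_le]
    intro φ
    let ψ : G ≃* G := (e.trans φ).trans e.symm
    have h := (Subgroup.characteristic_iff_map_le.mp Q_char) ψ
    rintro _ ⟨_, ⟨g, hg, rfl⟩, rfl⟩
    refine ⟨ψ g, h (Subgroup.mem_map_of_mem _ hg), ?_⟩
    simp [ψ]
  have hM : (N.map (commutator H).subtype).Normal := ConjAct.normal_of_characteristic_of_normal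
  set y : H := (e x : H) with hy
  have hyM : y ∈ N.map (commutator H).subtype :=
    ⟨e x, Subgroup.mem_map_of_mem _ x_mem_Q, rfl⟩
  have hle : N.map (commutator H).subtype ≤ Subgroup.zpowers y := by
    rintro _ ⟨_, ⟨g, hg, rfl⟩, rfl⟩
    obtain ⟨k, hk⟩ := Q_le g hg
    refine ⟨k, ?_⟩
    simp only at hk
    simp [← hk, hy]
  have hc := commutator_centralizes y (fun h => hle (hM.conj_mem y hyM h))
  have h1 := hc (e ((Equiv.swap 0 1, 1) : G)) (e ((Equiv.swap 0 1, 1) : G)).2
  have h2 : e (x * ((Equiv.swap 0 1, 1) : G)) = e (((Equiv.swap 0 1, 1) : G) * x) := by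
    rw [map_mul, map_mul]
    exact Subtype.ext h1
  have h3 := congrArg Prod.fst (e.injective h2)
  revert h3
  simp only [x, c3, Prod.mk_mul_mk]
  decide


/-! ### The restricted direct power `⨁_ℤ S₃` is a derived subgroup -/

/-- The infinite cyclic group. -/
abbrev Z : Type := Multiplicative ℤ

/-- The shift action of `ℤ` on functions `ℤ → S₃`. -/
def act : Z →* MulAut (ℤ → P) where
  toFun k :=
    { toFun := fun f n => f (n - Multiplicative.toAdd k)
      invFun := fun f n => f (n + Multiplicative.toAdd k)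
      left_inv := fun f => by funext i; simp
      right_inv := fun f => by funext i; simp
      map_mul' := fun f g => by funext i; simp }
  map_one' := by ext f i; simp
  map_mul' σ τ := by
    ext f i
    simp only [toAdd_mul, MulEquiv.coe_mk, Equiv.coe_fn_mk, MulAut.mul_apply]
    ring_nf

@[simp] lemma act_apply (k : Z) (f : ℤ → P) (n : ℤ) : act k f n = f (n - Multiplicative.toAdd k) := rfl

/-- The unrestricted wreath product `S₃ Wr ℤ`. -/
abbrev W : Type := (ℤ → P) ⋊[act] Z

/-- A transposition. -/
def t : P := Equiv.swap 0 1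

/-- The integral of `⨁_ℤ S₃`: functions which are `1` near `-∞` and eventually constant in `⟨t⟩`
near `+∞`, extended by the shift. -/
def H1 : Subgroup W where
  carrier := {w | (∃ M : ℤ, ∀ n ≤ M, w.left n = 1) ∧
    ∃ N : ℤ, ∃ c ∈ Subgroup.zpowers t, ∀ n ≥ N, w.left n = c}
  one_mem' := ⟨⟨0, fun n _ => rfl⟩, ⟨0, 1, one_mem _, fun n _ => rfl⟩⟩
  mul_mem' := by
    rintro a b ⟨⟨M, hM⟩, N, c, hc, hN⟩ ⟨⟨M', hM'⟩, N', c', hc', hN'⟩
    refine ⟨⟨min M (M' + Multiplicative.toAdd a.right), fun n hn => ?_⟩,
      max N (N' + Multiplicative.toAdd a.right), c * c', mul_mem hc hc', fun n hn => ?_⟩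
    · simp only [SemidirectProduct.mul_left, Pi.mul_apply, act_apply]
      rw [hM n (hn.trans (min_le_left _ _)), hM' _ (by have := hn.trans (min_le_right _ _); linarith), one_mul]
    · simp only [SemidirectProduct.mul_left, Pi.mul_apply, act_apply]
      rw [hN n ((le_max_left _ _).trans hn), hN' _ (by have := (le_max_right _ _).trans hn; linarith)]
  inv_mem' := by
    rintro a ⟨⟨M, hM⟩, N, c, hc, hN⟩
    refine ⟨⟨M - Multiplicative.toAdd a.right, fun n hn => ?_⟩,
      N - Multiplicative.toAdd a.right, c⁻¹, inv_mem hc, fun n hn => ?_⟩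
    · simp only [SemidirectProduct.inv_left, Pi.inv_apply, act_apply, toAdd_inv]
      rw [hM _ (by linarith), inv_one]
    · simp only [SemidirectProduct.inv_left, Pi.inv_apply, act_apply, toAdd_inv]
      rw [hN _ (by linarith)]

/-- The inclusion of `⨁_ℤ S₃`. -/
def j : FS ℤ P →* H1 where
  toFun f := ⟨SemidirectProduct.inl f, by
    have hf : (Function.mulSupport (f : ℤ → P)).Finite := f.2
    obtain ⟨M, hM⟩ := hf.bddBelow
    obtain ⟨N, hN⟩ := hf.bddAbove
    refine ⟨⟨M - 1, fun n hn => ?_⟩, N + 1, 1, one_mem _, fun n hn => ?_⟩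
    · by_contra hne
      have := hM (a := n) hne
      linarith
    · by_contra hne
      have := hN (a := n) hne
      linarith⟩
  map_one' := by
    apply Subtype.ext
    simp
  map_mul' f g := by
    apply Subtype.ext
    simp

lemma j_injective : Function.Injective j := by
  intro f g h
  have h1 := congrArg Subtype.val h
  exact Subtype.ext (SemidirectProduct.inl_injective h1)

lemma commutator_H1_le : commutator H1 ≤ j.range := by
  rw [commutator_def, Subgroup.commutator_le]
  rintro ⟨a, ⟨M, hM⟩, N, c, hc, hN⟩ _ ⟨b, ⟨M', hM'⟩, N', c', hc', hN'⟩ _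
  have hcc : c * c' = c' * c := by
    obtain ⟨i, rfl⟩ := hc
    obtain ⟨k, rfl⟩ := hc'
    exact (Commute.refl t).zpow_zpow i k
  set p := Multiplicative.toAdd a.right with hp
  set q := Multiplicative.toAdd b.right with hq
  have hl : ∀ n, (⁅a, b⁆ : W).left n = a.left n * b.left (n - p) * (a.left (n - q))⁻¹ * (b.left n)⁻¹ := by
    intro n
    rw [commutatorElement_def]
    simp only [SemidirectProduct.mul_left, SemidirectProduct.inv_left, SemidirectProduct.mul_right,
      SemidirectProduct.inv_right, Pi.mul_apply, Pi.inv_apply, act_apply, toAdd_mul, toAdd_inv, ← hp, ← hq]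
    congr 3 <;> ring_nf
  have hr : (⁅a, b⁆ : W).right = 1 := by
    rw [commutatorElement_def]
    simp only [SemidirectProduct.mul_right, SemidirectProduct.inv_right]
    rw [mul_comm a.right b.right]
    simp
  have hfin : (Function.mulSupport (⁅a, b⁆ : W).left).Finite := by
    let lo := min (min M M') (min (M + q) (M' + p))
    let hi := max (max N N') (max (N + q) (N' + p))
    refine (Set.finite_Icc lo hi).subset ?_
    intro n hn
    rw [Function.mem_mulSupport, hl] at hn
    by_contra hout
    rw [Set.mem_Icc, not_and_or, not_le, not_le] at hout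
    apply hn
    rcases hout with h | h
    · have h1 : n ≤ M := by simp only [lo, lt_min_iff] at h; linarith [h.1.1]
      have h2 : n ≤ M' := by simp only [lo, lt_min_iff] at h; linarith [h.1.2]
      have h3 : n - q ≤ M := by simp only [lo, lt_min_iff] at h; linarith [h.2.1]
      have h4 : n - p ≤ M' := by simp only [lo, lt_min_iff] at h; linarith [h.2.2]
      rw [hM _ h1, hM' _ h2, hM _ h3, hM' _ h4]
      simp
    · have h1 : n ≥ N := by simp only [hi, max_lt_iff] at h; linarith [h.1.1]
      have h2 : n ≥ N' := by simp only [hi, max_lt_iff] at h; linarith [h.1.2]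
      have h3 : n - q ≥ N := by simp only [hi, max_lt_iff] at h; linarith [h.2.1]
      have h4 : n - p ≥ N' := by simp only [hi, max_lt_iff] at h; linarith [h.2.2]
      rw [hN _ h1, hN' _ h2, hN _ h3, hN' _ h4, hcc]
      simp
  refine ⟨⟨(⁅a, b⁆ : W).left, hfin⟩, ?_⟩
  apply Subtype.ext
  refine SemidirectProduct.ext ?_ ?_
  · rfl
  · exact hr.symm


/-- A subgroup of functions containing all single-coordinate functions contains all finitely
supported functions. -/
lemma mem_of_singles (N : Subgroup (FS ℤ P)) (hN : ∀ n σ, single n σ ∈ N) (f : FS ℤ P) : f ∈ N := by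
  have key : ∀ s : Finset ℤ, ∀ f : FS ℤ P, (Function.mulSupport (f : ℤ → P)) ⊆ s → f ∈ N := by
    intro s
    induction s using Finset.induction_on with
    | empty =>
      intro f hf
      have : f = 1 := by
        apply Subtype.ext
        simpa using hf
      rw [this]
      exact one_mem _
    | insert a s ha ih =>
      intro f hf
      have h1 : ((single a ((f : ℤ → P) a))⁻¹ * f) ∈ N := by
        apply ih
        intro n hn
        rw [Function.mem_mulSupport] at hn
        by_cases hna : n = a
        · subst hna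
          simp [single] at hn
        · have : (f : ℤ → P) n ≠ 1 := by
            simpa [single, Pi.mulSingle_eq_of_ne hna] using hn
          have h2 := hf this
          rw [Finset.coe_insert, Set.mem_insert_iff] at h2
          exact h2.resolve_left hna
      have h2 := mul_mem (hN a ((f : ℤ → P) a)) h1
      simpa using h2
  have hf : (Function.mulSupport (f : ℤ → P)).Finite := f.2
  exact key hf.toFinset f (by simp)

lemma single_mul {ι M : Type} [DecidableEq ι] [Group M] (i : ι) (x y : M) :
    single i (x * y) = single i x * single i y :=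
  Subtype.ext (Pi.mulSingle_mul (f := fun _ : ι => M) i x y)

lemma single_inv {ι M : Type} [DecidableEq ι] [Group M] (i : ι) (x : M) :
    single i (x⁻¹) = (single i x)⁻¹ :=
  Subtype.ext (Pi.mulSingle_inv (f := fun _ : ι => M) i x)

/-- The function equal to `t` on `[n, ∞)` and `1` elsewhere. -/
def hh (n : ℤ) : H1 := ⟨SemidirectProduct.inl (fun m => if n ≤ m then t else 1), by
  refine ⟨⟨n - 1, fun m hm => ?_⟩, n, t, Subgroup.mem_zpowers t, fun m hm => ?_⟩
  · have : ¬ n ≤ m := by linarith
    simp [this]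
  · have : n ≤ m := hm
    simp [this]⟩

/-- The shift. -/
def ss : H1 := ⟨SemidirectProduct.inr (Multiplicative.ofAdd 1),
  ⟨⟨0, fun _ _ => rfl⟩, ⟨0, 1, one_mem _, fun _ _ => rfl⟩⟩⟩

lemma hh_ss (n : ℤ) : ⁅hh n, ss⁆ = j (single n t) := by
  apply Subtype.ext
  rw [commutatorElement_def]
  refine SemidirectProduct.ext ?_ ?_
  · funext m
    simp only [hh, ss, j, Subgroup.coe_mul, Subgroup.coe_inv, SemidirectProduct.mul_left,
      SemidirectProduct.inv_left, SemidirectProduct.mul_right, SemidirectProduct.inv_right,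
      SemidirectProduct.left_inl, SemidirectProduct.left_inr, SemidirectProduct.right_inl,
      SemidirectProduct.right_inr, Pi.mul_apply, Pi.inv_apply, act_apply, toAdd_mul, toAdd_inv,
      toAdd_one, toAdd_ofAdd, MonoidHom.coe_mk, OneHom.coe_mk, single]
    rcases lt_trichotomy m n with h | h | h
    · have h1 : ¬ n ≤ m := not_le.mpr h
      have h2 : ¬ n ≤ m - 1 := by omega
      have h3 : m ≠ n := h.ne
      simp [h1, h2, Pi.mulSingle_eq_of_ne h3]
    · subst h
      simp
    · have h1 : n ≤ m := h.le
      have h2 : n ≤ m - 1 := by omega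
      have h3 : m ≠ n := h.ne'
      simp [h1, h2, Pi.mulSingle_eq_of_ne h3]
  · simp [hh, ss, j]

lemma le_commutator_H1 : j.range ≤ commutator H1 := by
  have ht : ∀ n, j (single n t) ∈ commutator H1 := by
    intro n
    rw [← hh_ss, commutator_def]
    exact Subgroup.commutator_mem_commutator (Subgroup.mem_top _) (Subgroup.mem_top _)
  have hc : ∀ n (a : P), j (single n (a * t * a⁻¹)) ∈ commutator H1 := by
    intro n a
    rw [single_mul, single_mul, single_inv, map_mul, map_mul, map_inv]
    exact (inferInstance : (commutator H1).Normal).conj_mem _ (ht n) _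
  have hgen : ∀ σ : P, (∃ a : P, σ = a * t * a⁻¹) ∨ (∃ a b : P, σ = (a * t * a⁻¹) * (b * t * b⁻¹)) := by
    unfold t
    decide
  have hall : ∀ n σ, single n σ ∈ (commutator H1).comap j := by
    intro n σ
    rw [Subgroup.mem_comap]
    rcases hgen σ with ⟨a, rfl⟩ | ⟨a, b, rfl⟩
    · exact hc n a
    · rw [single_mul, map_mul]
      exact mul_mem (hc n a) (hc n b)
  rintro _ ⟨f, rfl⟩
  exact mem_of_singles _ hall f

lemma commutator_H1 : commutator H1 = j.range := le_antisymm commutator_H1_le le_commutator_H1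

lemma perfect_pow (m : ℕ) : commutator (Fin m → A) = ⊤ := by
  have h := Subgroup.commutator_pi_pi_of_finite (η := Fin m) (Gs := fun _ => A) (fun _ => ⊤) (fun _ => ⊤)
  have h1 : Subgroup.pi Set.univ (fun _ : Fin m => (⊤ : Subgroup A)) = ⊤ := by
    ext x; simp [Subgroup.mem_pi]
  rw [h1] at h
  rw [commutator_def, h]
  have h2 : ⁅(⊤ : Subgroup A), ⊤⁆ = ⊤ := perfect_A
  rw [h2]
  exact h1

/-- The model of the integrable subgroups used: `A₅^m × ⨁_ℤ S₃`. -/
abbrev D (m : ℕ) : Type := (Fin m → A) × FS ℤ P

/-- An integral of `D m`. -/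
abbrev I (m : ℕ) : Type := (Fin m → A) × H1

lemma range_Theta (m : ℕ) :
    ((MonoidHom.id (Fin m → A)).prodMap j).range = commutator (I m) := by
  have h := Subgroup.commutator_prod_prod (⊤ : Subgroup (Fin m → A)) ⊤ (⊤ : Subgroup H1) ⊤
  rw [Subgroup.top_prod_top] at h
  rw [commutator_def, h]
  have h1 : ⁅(⊤ : Subgroup (Fin m → A)), ⊤⁆ = ⊤ := perfect_pow m
  have h2 : ⁅(⊤ : Subgroup H1), ⊤⁆ = j.range := commutator_H1
  rw [h1, h2]
  ext ⟨a, b⟩
  simp [Subgroup.mem_prod, MonoidHom.mem_range]

lemma integrable_D (m : ℕ) : Nonempty (D m ≃* commutator (I m)) := by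
  have hinj : Function.Injective ((MonoidHom.id (Fin m → A)).prodMap j) := by
    rintro ⟨a, b⟩ ⟨c, d⟩ h
    have h1 : a = c := congrArg Prod.fst h
    have h2 : j b = j d := congrArg Prod.snd h
    exact Prod.ext h1 (j_injective h2)
  rw [← range_Theta]
  exact ⟨MonoidHom.ofInjective hinj⟩

/-! ### Embedding of `D m` in `G` -/

/-- The embedding of `S₃` in `A₅`. -/
def iota : P →* A where
  toFun σ := ⟨Equiv.Perm.sumCongr σ (if Equiv.Perm.sign σ = 1 then 1 else Equiv.swap 0 1), by
    rw [Equiv.Perm.mem_alternatingGroup]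
    revert σ
    decide⟩
  map_one' := by
    apply Subtype.ext
    simp
  map_mul' := by
    decide

lemma iota_injective : Function.Injective iota := by
  intro a b h
  revert a b
  decide

/-- A bijection used to index coordinates. -/
def ee : Option ℕ ≃ ℤ := Denumerable.equiv₂ (Option ℕ) ℤ

/-- The embedding `A₅^m × ⨁_ℤ S₃ → S₃ × ⨁_ℕ A₅`. -/
def theta (m : ℕ) : D m →* G where
  toFun x := ((x.2 : ℤ → P) (ee none),
    ⟨fun n => if h : n < m then x.1 ⟨n, h⟩ else iota ((x.2 : ℤ → P) (ee (some (n - m)))), by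
      rw [mem_FS]
      have h1 : (Function.mulSupport (x.2 : ℤ → P)).Finite := x.2.2
      have h2 : ((fun k : ℕ => ee (some k)) ⁻¹' (Function.mulSupport (x.2 : ℤ → P))).Finite :=
        h1.preimage (fun a _ b _ hab => Option.some_injective _ (ee.injective hab))
      refine ((Set.finite_lt_nat m).union (h2.image (fun k => k + m))).subset ?_
      intro n hn
      rw [Function.mem_mulSupport] at hn
      by_cases h : n < m
      · exact Or.inl h
      · right
        rw [dif_neg h] at hn
        refine ⟨n - m, ?_, by simp only; omega⟩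
        rw [Set.mem_preimage, Function.mem_mulSupport]
        intro h0
        apply hn
        rw [h0, map_one]⟩)
  map_one' := by
    refine Prod.ext rfl (Subtype.ext ?_)
    funext n
    by_cases h : n < m <;> simp [h]
  map_mul' x y := by
    refine Prod.ext rfl (Subtype.ext ?_)
    funext n
    by_cases h : n < m <;> simp [h]

lemma theta_injective (m : ℕ) : Function.Injective (theta m) := by
  rintro ⟨a, f⟩ ⟨b, g⟩ h
  have h1 : (f : ℤ → P) (ee none) = (g : ℤ → P) (ee none) := congrArg Prod.fst h
  have h2 : ∀ n, (if h : n < m then a ⟨n, h⟩ else iota ((f : ℤ → P) (ee (some (n - m))))) =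
      (if h : n < m then b ⟨n, h⟩ else iota ((g : ℤ → P) (ee (some (n - m))))) := fun n =>
    congrFun (congrArg Subtype.val (congrArg Prod.snd h)) n
  refine Prod.ext ?_ (Subtype.ext ?_)
  · funext i
    have := h2 i.1
    rw [dif_pos i.2, dif_pos i.2] at this
    exact this
  · funext z
    obtain ⟨o, rfl⟩ := ee.surjective z
    cases o with
    | none => exact h1
    | some k =>
      have := h2 (k + m)
      have hk : ¬ (k + m < m) := by omega
      rw [dif_neg hk, dif_neg hk, Nat.add_sub_cancel] at this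
      exact iota_injective this

lemma below_le_range (m : ℕ) (g : G) (hg : ∀ n, m ≤ n → (g.2 : ℕ → A) n = 1) :
    g ∈ (theta m).range := by
  refine ⟨(fun i => (g.2 : ℕ → A) i, single (ee none) g.1), ?_⟩
  refine Prod.ext ?_ (Subtype.ext ?_)
  · simp [theta, single]
  · funext n
    by_cases h : n < m
    · simp [theta, h]
    · simp [theta, h, single, hg n (not_lt.mp h)]

/-- There is a locally finite, locally integrable group `G` which is not isomorphic to the derived
subgroup of any group (in any universe). -/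
theorem result : ∃ (G : Type) (_ : Group G),
    (∀ S : Set G, S.Finite → (Subgroup.closure S : Set G).Finite) ∧
    (∀ S : Set G, S.Finite → ∃ K : Subgroup G, S ⊆ K ∧
      ∃ (H : Type) (_ : Group H), Nonempty (K ≃* commutator H)) ∧
    (∀ (H : Type*) [Group H], ¬ Nonempty (commutator H ≃* G)) := by
  refine ⟨G, inferInstance, locally_finite, ?_, ?_⟩
  · intro S hS
    obtain ⟨m, hm⟩ := exists_bound S hS
    refine ⟨(theta m).range, fun g hg => below_le_range m g (hm g hg), I m, inferInstance, ?_⟩
    obtain ⟨e⟩ := integrable_D m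
    exact ⟨(MonoidHom.ofInjective (theta_injective m)).symm.trans e⟩
  · rintro H _ ⟨e⟩
    exact not_integrable H e.symm

end Pool.Agent.Results.MP_2bd3fb_al.NotIntegrable
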